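import Mathlib
import Pool.Agent.Y568.FrozenP5Data

/-!
# No 3-colourable `P₅`-free graph has a frozen 4-colouring
-/

set_option autoImplicit false

namespace Pool.Agent.Y568.FrozenP5

open Pool.Agent.Y568.Rup

theorem ct_or (f : Nat → Prop) (A B : Nat) : ct f (A ||| B) ↔ ct f A ∨ ct f B := by
  unfold ct
  constructor
  · rintro ⟨l, h1, h2⟩
    rw [Nat.testBit_or] at h1
    rcases Bool.or_eq_true _ _ ▸ h1 with h | h
    · exact Or.inl ⟨l, h, h2⟩
    · exact Or.inr ⟨l, h, h2⟩
  · rintro (⟨l, h1, h2⟩ | ⟨l, h1, h2⟩)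
    · exact ⟨l, by rw [Nat.testBit_or, h1]; rfl, h2⟩
    · exact ⟨l, by rw [Nat.testBit_or, h1]; simp, h2⟩

theorem ct_zero (f : Nat → Prop) : ¬ ct f 0 := by
  rintro ⟨l, h, _⟩
  simp at h

theorem ct_pos (f : Nat → Prop) (v : Nat) : ct f (pos v) ↔ f v := by
  unfold ct pos
  constructor
  · rintro ⟨l, h1, h2⟩
    rw [testBit_one_shl] at h1
    have h3 := of_decide_eq_true h1
    subst h3
    rcases h2 with ⟨_, h⟩ | ⟨h, _⟩
    · have : 2 * v / 2 = v := by omega
      rwa [this] at h
    · omega
  · intro h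
    refine ⟨2 * v, by rw [testBit_one_shl]; simp, Or.inl ⟨by omega, ?_⟩⟩
    have : 2 * v / 2 = v := by omega
    rwa [this]

theorem ct_neg (f : Nat → Prop) (v : Nat) : ct f (neg v) ↔ ¬ f v := by
  unfold ct neg
  constructor
  · rintro ⟨l, h1, h2⟩
    rw [testBit_one_shl] at h1
    have h3 := of_decide_eq_true h1
    subst h3
    rcases h2 with ⟨h, _⟩ | ⟨_, h⟩
    · omega
    · have : (2 * v + 1) / 2 = v := by omega
      rwa [this] at h
  · intro h
    refine ⟨2 * v + 1, by rw [testBit_one_shl]; simp, Or.inr ⟨by omega, ?_⟩⟩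
    have : (2 * v + 1) / 2 = v := by omega
    rwa [this]

section

variable {V : Type*} (G : SimpleGraph V)

/-- the 5-vertex-path freeness in the form used below -/
def P5free : Prop := ∀ a b c d e : V, G.Adj a b → G.Adj b c → G.Adj c d → G.Adj d e →
  ¬ G.Adj a c → ¬ G.Adj a d → ¬ G.Adj a e → ¬ G.Adj b d → ¬ G.Adj b e → ¬ G.Adj c e → False

theorem P5free_of_isEmpty (h : IsEmpty (SimpleGraph.pathGraph 5 ↪g G)) : P5free G := by
  intro a b c d e hab hbc hcd hde hac had hae hbd hbe hce
  have ne1 := hab.ne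
  have ne2 := hbc.ne
  have ne3 := hcd.ne
  have ne4 := hde.ne
  have nac : a ≠ c := by rintro rfl; exact had hcd
  have nad : a ≠ d := by rintro rfl; exact hae hde
  have nae : a ≠ e := by rintro rfl; exact hbe hab.symm
  have nbd : b ≠ d := by rintro rfl; exact had hab
  have nbe : b ≠ e := by rintro rfl; exact hae hab
  have nce : c ≠ e := by rintro rfl; exact hbe hbc
  refine h.false ⟨⟨![a, b, c, d, e], ?_⟩, ?_⟩
  · intro i j hij
    fin_cases i <;> fin_cases j <;> simp_all
  · intro i j
    have hba := hab.symm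
    have hcb := hbc.symm
    have hdc := hcd.symm
    have hed := hde.symm
    have hca : ¬ G.Adj c a := fun h => hac h.symm
    have hda : ¬ G.Adj d a := fun h => had h.symm
    have hea : ¬ G.Adj e a := fun h => hae h.symm
    have hdb : ¬ G.Adj d b := fun h => hbd h.symm
    have heb : ¬ G.Adj e b := fun h => hbe h.symm
    have hec : ¬ G.Adj e c := fun h => hce h.symm
    show G.Adj (![a, b, c, d, e] i) (![a, b, c, d, e] j) ↔ (SimpleGraph.pathGraph 5).Adj i j
    rw [SimpleGraph.pathGraph_adj]
    fin_cases i <;> fin_cases j <;>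
      simp [hab, hbc, hcd, hde, hac, had, hae, hbd, hbe, hce,
        hba, hcb, hdc, hed, hca, hda, hea, hdb, heb, hec]

variable {G}
variable (c4 : V → Fin 4) (c3 : V → Fin 3) (vert : Nat → V)

/-- the valuation -/
def val (G : SimpleGraph V) (c3 : V → Fin 3) (vert : Nat → V) (n : Nat) : Prop :=
  (n < 1024 ∧ G.Adj (vert (n / 32)) (vert (n % 32))) ∨
  (1024 ≤ n ∧ (c3 (vert ((n - 1024) / 4))).val = (n - 1024) % 4)

theorem val_ev (i j : Nat) (hi : i < 24) (hj : j < 24) :
    val G c3 vert (ev i j) ↔ G.Adj (vert i) (vert j) := by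
  unfold val ev
  cases h : Nat.ble i j with
  | true =>
    simp only [cond_true]
    have h1 : (32 * i + j) / 32 = i := by omega
    have h2 : (32 * i + j) % 32 = j := by omega
    rw [h1, h2]
    constructor
    · rintro (⟨_, h⟩ | ⟨h, _⟩)
      · exact h
      · omega
    · intro h
      exact Or.inl ⟨by omega, h⟩
  | false =>
    simp only [cond_false]
    have h1 : (32 * j + i) / 32 = j := by omega
    have h2 : (32 * j + i) % 32 = i := by omega
    rw [h1, h2]
    constructor
    · rintro (⟨_, h⟩ | ⟨h, _⟩)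
      · exact h.symm
      · omega
    · intro h
      exact Or.inl ⟨by omega, h.symm⟩

theorem val_cv (i k : Nat) (hk : k < 4) :
    val G c3 vert (cv i k) ↔ (c3 (vert i)).val = k := by
  unfold val cv
  have h1 : (1024 + (4 * i + k) - 1024) / 4 = i := by omega
  have h2 : (1024 + (4 * i + k) - 1024) % 4 = k := by omega
  rw [h1, h2]
  constructor
  · rintro (⟨h, _⟩ | ⟨_, h⟩)
    · omega
    · exact h
  · intro h
    exact Or.inr ⟨by omega, h⟩

/-- the hypotheses about the 24 vertices -/
structure Setup (G : SimpleGraph V) (c4 : V → Fin 4) (c3 : V → Fin 3) (vert : Nat → V) : Prop where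
  free : P5free G
  proper4 : ∀ u v, G.Adj u v → c4 u ≠ c4 v
  proper3 : ∀ u v, G.Adj u v → c3 u ≠ c3 v
  col4 : ∀ i, i < 24 → (c4 (vert i)).val = col i
  tree : ∀ i, 0 < i → i < 24 → G.Adj (vert (par i)) (vert i)
  root0 : (c3 (vert 0)).val = 0
  root1 : (c3 (vert 1)).val = 1

variable {c4 c3 vert}

theorem par_lt (i : Nat) (h : i < 24) : par i < 24 := by
  have : ∀ j : Fin 24, par j.val < 24 := by decide
  exact this ⟨i, h⟩

theorem ct_posE (S : Setup G c4 c3 vert) (i j : Nat) (hi : i < 24) (hj : j < 24)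
    (h : G.Adj (vert i) (vert j)) : ct (val G c3 vert) (posE i j) := by
  unfold posE
  cases hb : Nat.beq (col i) (col j) with
  | false => rw [cond_false, ct_pos, val_ev c3 vert i j hi hj]; exact h
  | true =>
    exfalso
    have h1 := Nat.eq_of_beq_eq_true hb
    rw [← S.col4 i hi, ← S.col4 j hj] at h1
    exact S.proper4 _ _ h (Fin.ext h1)

theorem ax_true (S : Setup G c4 c3 vert) (a : Ax) (h : a.ok = true) :
    ct (val G c3 vert) a.mask := by
  cases a with
  | p5 a b c d e =>
    simp only [Ax.ok, Bool.and_eq_true, Nat.blt_eq] at h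
    obtain ⟨ha, hb, hc, hd, he⟩ := h
    unfold Ax.mask
    simp only [ct_or, ct_neg, val_ev c3 vert a b ha hb, val_ev c3 vert b c hb hc,
      val_ev c3 vert c d hc hd, val_ev c3 vert d e hd he]
    by_contra hcon
    simp only [not_or, not_not] at hcon
    obtain ⟨h1, h2, h3, h4, h5, h6, h7, h8, h9, h10⟩ := hcon
    exact S.free _ _ _ _ _ h1 h2 h3 h4
      (fun h => h5 (ct_posE S _ _ ha hc h)) (fun h => h6 (ct_posE S _ _ ha hd h))
      (fun h => h7 (ct_posE S _ _ ha he h)) (fun h => h8 (ct_posE S _ _ hb hd h))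
      (fun h => h9 (ct_posE S _ _ hb he h)) (fun h => h10 (ct_posE S _ _ hc he h))
  | som i =>
    unfold Ax.mask
    simp only [ct_or, ct_pos]
    rw [val_cv c3 vert i 0 (by norm_num), val_cv c3 vert i 1 (by norm_num),
      val_cv c3 vert i 2 (by norm_num)]
    have := (c3 (vert i)).isLt
    omega
  | amo i k l =>
    simp only [Ax.ok, Bool.and_eq_true, Nat.blt_eq, Bool.not_eq_true'] at h
    obtain ⟨hi, hk, hl, hkl⟩ := h
    unfold Ax.mask
    simp only [ct_or, ct_neg]
    rw [val_cv c3 vert i k (by omega), val_cv c3 vert i l (by omega)]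
    have hne : k ≠ l := Nat.ne_of_beq_eq_false hkl
    omega
  | prp i j k =>
    simp only [Ax.ok, Bool.and_eq_true, Nat.blt_eq] at h
    obtain ⟨hi, hj, hk⟩ := h
    unfold Ax.mask
    simp only [ct_or, ct_neg]
    rw [val_cv c3 vert i k (by omega), val_cv c3 vert j k (by omega),
      val_ev c3 vert i j hi hj]
    by_cases h : G.Adj (vert i) (vert j)
    · right
      by_contra hcon
      simp only [not_or, not_not] at hcon
      exact S.proper3 _ _ h (Fin.ext (hcon.1.trans hcon.2.symm))
    · exact Or.inl h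
  | tr i =>
    simp only [Ax.ok, Bool.and_eq_true, Nat.blt_eq] at h
    obtain ⟨hi, h0⟩ := h
    unfold Ax.mask
    rw [ct_pos, val_ev c3 vert (par i) i (par_lt i hi) hi]
    exact S.tree i h0 hi
  | r0 =>
    unfold Ax.mask
    rw [ct_pos, val_cv c3 vert 0 0 (by norm_num)]
    exact S.root0
  | r1 =>
    unfold Ax.mask
    rw [ct_pos, val_cv c3 vert 1 1 (by norm_num)]
    exact S.root1

theorem no_setup (S : Setup G c4 c3 vert) : False := by
  refine check_sound (val G c3 vert) (axs.map Ax.mask) sts ?_ checked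
  intro C hC
  obtain ⟨a, ha, rfl⟩ := List.mem_map.1 hC
  exact ax_true S a (List.all_eq_true.1 allOk a ha)

end

/-- Main theorem: a `P₅`-free graph with a proper 3-colouring has no frozen proper 4-colouring. -/
theorem main {V : Type*} (G : SimpleGraph V) (free : P5free G) (c4 : V → Fin 4)
    (proper4 : ∀ u v, G.Adj u v → c4 u ≠ c4 v) (c3 : V → Fin 3)
    (proper3 : ∀ u v, G.Adj u v → c3 u ≠ c3 v)
    (frozen : ∀ v : V, ∀ i : Fin 4, i ≠ c4 v → ∃ w : V, G.Adj v w ∧ c4 w = i) (v0 : V) : False := by
  classical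
  -- a root of colour 0
  obtain ⟨r, hr⟩ : ∃ r : V, c4 r = 0 := by
    by_cases h : c4 v0 = 0
    · exact ⟨v0, h⟩
    · obtain ⟨w, _, hw⟩ := frozen v0 0 (Ne.symm h)
      exact ⟨w, hw⟩
  -- witnesses
  have hw : ∀ v : V, ∀ i : Fin 4, ∃ w : V, i ≠ c4 v → G.Adj v w ∧ c4 w = i := by
    intro v i
    by_cases h : i ≠ c4 v
    · obtain ⟨w, hw⟩ := frozen v i h
      exact ⟨w, fun _ => hw⟩
    · exact ⟨v, fun h' => absurd h' h⟩
  choose w hw using hw
  have par_lt' : ∀ i, 0 < i → par i < i := by
    intro i hi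
    by_cases h : i < 24
    · have : ∀ j : Fin 24, 0 < j.val → par j.val < j.val := by decide
      exact this ⟨i, h⟩ hi
    · have : par i = 0 := by
        unfold par
        rw [List.getD_eq_getElem?_getD, List.getElem?_eq_none]
        · rfl
        · show 24 ≤ i
          omega
      omega
  have col_lt : ∀ i, col i < 4 := by
    intro i
    by_cases h : i < 24
    · have : ∀ j : Fin 24, col j.val < 4 := by decide
      exact this ⟨i, h⟩
    · have : col i = 0 := by
        unfold col
        rw [List.getD_eq_getElem?_getD, List.getElem?_eq_none]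
        · rfl
        · show 24 ≤ i
          omega
      omega
  obtain ⟨vert, hv0, hvs⟩ : ∃ vert : Nat → V, vert 0 = r ∧
      ∀ i, 0 < i → vert i = w (vert (par i)) ⟨col i, col_lt i⟩ := by
    let F : (n : Nat) → ((m : Nat) → m < n → V) → V := fun n ih =>
      if h : 0 < n then w (ih (par n) (par_lt' n h)) ⟨col n, col_lt n⟩ else r
    refine ⟨fun n => Nat.strongRec (motive := fun _ => V) F n, ?_, ?_⟩
    · show Nat.strongRec (motive := fun _ => V) F 0 = r
      rw [Nat.strongRec]
      simp [F]
    · intro i hi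
      show Nat.strongRec (motive := fun _ => V) F i = _
      rw [Nat.strongRec]
      simp [F, hi]
  have col_par : ∀ i, 0 < i → i < 24 → col i ≠ col (par i) := by
    intro i hi h
    have : ∀ j : Fin 24, 0 < j.val → col j.val ≠ col (par j.val) := by decide
    exact this ⟨i, h⟩ hi
  have key : ∀ i, i < 24 → (c4 (vert i)).val = col i := by
    intro i
    induction i using Nat.strong_induction_on with
    | _ i ih =>
      intro hi
      by_cases h0 : 0 < i
      · rw [hvs i h0]
        have h1 := ih (par i) (par_lt' i h0) (par_lt i hi)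
        have h2 := hw (vert (par i)) ⟨col i, col_lt i⟩ (by
          intro he
          apply col_par i h0 hi
          rw [← h1, ← he])
        rw [h2.2]
      · have : i = 0 := by omega
        subst this
        rw [hv0, hr]
        rfl
  have tree : ∀ i, 0 < i → i < 24 → G.Adj (vert (par i)) (vert i) := by
    intro i h0 hi
    have h1 := key (par i) (par_lt i hi)
    have h2 := hw (vert (par i)) ⟨col i, col_lt i⟩ (by
          intro he
          apply col_par i h0 hi
          rw [← h1, ← he])
    rw [hvs i h0]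
    exact h2.1
  have hne : c3 (vert 0) ≠ c3 (vert 1) := proper3 _ _ (tree 1 (by norm_num) (by norm_num))
  obtain ⟨σ, h0, h1⟩ : ∃ σ : Equiv.Perm (Fin 3), σ (c3 (vert 0)) = 0 ∧ σ (c3 (vert 1)) = 1 := by
    have : ∀ a b : Fin 3, a ≠ b → ∃ σ : Equiv.Perm (Fin 3), σ a = 0 ∧ σ b = 1 := by decide
    exact this _ _ hne
  exact no_setup (G := G) (c4 := c4) (c3 := fun v => σ (c3 v)) (vert := vert)
    { free := free
      proper4 := proper4
      proper3 := fun u v h he => proper3 u v h (σ.injective he)
      col4 := key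
      tree := tree
      root0 := by show (σ (c3 (vert 0))).val = 0; rw [h0]; rfl
      root1 := by show (σ (c3 (vert 1))).val = 1; rw [h1]; rfl }

end Pool.Agent.Y568.FrozenP5
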