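import Mathlib

/-!
# A small kernel-evaluable checker for unit-propagation refutations

Literals are natural numbers: `2 * v` is the variable `v`, `2 * v + 1` its negation.
A clause is the bit mask of its literals.  `run steps t i = true` certifies that the clauses
stored in the tree `t` are jointly unsatisfiable.
-/

set_option autoImplicit false

namespace Pool.Agent.Y568.Rup

/-- evaluate a natural number before passing it on (matters only for kernel evaluation) -/
def force {α : Type} (n : Nat) (k : Nat → α) : α :=
  Nat.rec (k 0) (fun m _ => k (m + 1)) n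

theorem force_eq {α : Type} (n : Nat) (k : Nat → α) : force n k = k n := by
  cases n <;> rfl

/-- truth of a literal -/
def lt (f : Nat → Prop) (l : Nat) : Prop :=
  (l % 2 = 0 ∧ f (l / 2)) ∨ (l % 2 = 1 ∧ ¬ f (l / 2))

/-- the negated literal -/
def ng (l : Nat) : Nat := l ^^^ 1

theorem ng_even (l : Nat) (h : l % 2 = 0) : ng l = l + 1 := by
  unfold ng
  obtain ⟨k, rfl⟩ : ∃ k, l = 2 * k := ⟨l / 2, by omega⟩
  apply Nat.eq_of_testBit_eq
  intro i
  rw [Nat.testBit_xor]
  cases i with
  | zero => simp [Nat.testBit_zero]
  | succ j =>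
    have h1 : (2 * k + 1).testBit (j + 1) = k.testBit j := by
      rw [Nat.testBit_succ]; congr 1; omega
    have h2 : (2 * k).testBit (j + 1) = k.testBit j := by
      rw [Nat.testBit_succ]; congr 1; omega
    have h3 : (1 : Nat).testBit (j + 1) = false := by
      rw [Nat.testBit_succ]; simp
    rw [h1, h2, h3]; simp

theorem ng_odd (l : Nat) (h : l % 2 = 1) : ng l = l - 1 := by
  unfold ng
  obtain ⟨k, rfl⟩ : ∃ k, l = 2 * k + 1 := ⟨l / 2, by omega⟩
  apply Nat.eq_of_testBit_eq
  intro i
  rw [Nat.testBit_xor]
  cases i with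
  | zero => simp [Nat.testBit_zero]
  | succ j =>
    have h1 : (2 * k + 1).testBit (j + 1) = k.testBit j := by
      rw [Nat.testBit_succ]; congr 1; omega
    have h2 : (2 * k + 1 - 1).testBit (j + 1) = k.testBit j := by
      rw [Nat.testBit_succ]; congr 1; omega
    have h3 : (1 : Nat).testBit (j + 1) = false := by
      rw [Nat.testBit_succ]; simp
    rw [h1, h2, h3]; simp

theorem lt_ng (f : Nat → Prop) (l : Nat) (h : lt f l) : ¬ lt f (ng l) := by
  rcases Nat.mod_two_eq_zero_or_one l with h0 | h0
  · rw [ng_even l h0]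
    rcases h with ⟨_, h2⟩ | ⟨h1, _⟩
    · rintro (⟨h3, _⟩ | ⟨_, h4⟩)
      · omega
      · apply h4
        have : (l + 1) / 2 = l / 2 := by omega
        rw [this]; exact h2
    · omega
  · rw [ng_odd l h0]
    rcases h with ⟨h1, _⟩ | ⟨_, h2⟩
    · omega
    · rintro (⟨_, h4⟩ | ⟨h3, _⟩)
      · apply h2
        have : (l - 1) / 2 = l / 2 := by omega
        rw [this] at h4; exact h4
      · omega

/-- truth of a clause -/
def ct (f : Nat → Prop) (C : Nat) : Prop := ∃ l, C.testBit l = true ∧ lt f l

/-- all the literals of the mask are false -/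
def FF (f : Nat → Prop) (F : Nat) : Prop := ∀ l, F.testBit l = true → ¬ lt f l

theorem testBit_one_shl (l i : Nat) : (1 <<< l).testBit i = decide (l = i) := by
  rw [Nat.shiftLeft_eq, Nat.one_mul]
  exact Nat.testBit_two_pow

theorem unit_step (f : Nat → Prop) (F C l : Nat) (hF : FF f F) (hC : ct f C)
    (h : C ||| (F ||| 1 <<< l) = F ||| 1 <<< l) : lt f l := by
  obtain ⟨m, hm, hl⟩ := hC
  have h1 : (F ||| 1 <<< l).testBit m = true := by
    rw [← h, Nat.testBit_or, hm]; rfl
  rw [Nat.testBit_or, testBit_one_shl] at h1
  rcases Bool.or_eq_true _ _ ▸ h1 with h2 | h2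
  · exact absurd hl (hF m h2)
  · rw [of_decide_eq_true h2]; exact hl

theorem FF_insert (f : Nat → Prop) (F l : Nat) (hF : FF f F) (hl : lt f l) :
    FF f (F ||| 1 <<< (ng l)) := by
  intro m hm
  rw [Nat.testBit_or, testBit_one_shl] at hm
  rcases Bool.or_eq_true _ _ ▸ hm with h2 | h2
  · exact hF m h2
  · rw [← of_decide_eq_true h2]; exact lt_ng f l hl

theorem conflict (f : Nat → Prop) (F C : Nat) (hF : FF f F) (hC : ct f C)
    (h : C ||| F = F) : False := by
  obtain ⟨m, hm, hl⟩ := hC
  have h1 : F.testBit m = true := by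
    rw [← h, Nat.testBit_or, hm]; rfl
  exact hF m h1 hl

/-- the tautology `v₀ ∨ ¬ v₀` -/
theorem ct_three (f : Nat → Prop) : ct f 3 := by
  by_cases h : f 0
  · exact ⟨0, by decide, Or.inl ⟨rfl, h⟩⟩
  · exact ⟨1, by decide, Or.inr ⟨rfl, h⟩⟩

/-- clause store: binary tree indexed by the bits of the clause number, low bit first -/
inductive T where
  | nil : T
  | leaf : Nat → T
  | node : T → T → T

def T.All (P : Nat → Prop) : T → Prop
  | .nil => True
  | .leaf n => P n
  | .node l r => T.All P l ∧ T.All P r

def getK (k : Nat → Bool) : T → Nat → Bool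
  | .nil, _ => k 3
  | .leaf n, _ => k n
  | .node l r, i =>
    force (i / 2) fun j => bif Nat.beq (i % 2) 0 then getK k l j else getK k r j

theorem getK_sound (P : Nat → Prop) (h3 : P 3) (k : Nat → Bool) :
    ∀ (t : T) (i : Nat), T.All P t → getK k t i = true → ∃ c, P c ∧ k c = true
  | .nil, _, _, h => ⟨3, h3, h⟩
  | .leaf n, _, ht, h => ⟨n, ht, h⟩
  | .node l r, i, ht, h => by
    rw [getK, force_eq] at h
    cases hb : Nat.beq (i % 2) 0 with
    | true => rw [hb] at h; exact getK_sound P h3 k l _ ht.1 h
    | false => rw [hb] at h; exact getK_sound P h3 k r _ ht.2 h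

def insK (v : Nat) : Nat → T → Nat → (T → Bool) → Bool
  | 0, _, _, k => k (.leaf v)
  | d + 1, .node l r, i, k =>
    force (i / 2) fun j =>
      bif Nat.beq (i % 2) 0 then insK v d l j (fun l' => k (.node l' r))
      else insK v d r j (fun r' => k (.node l r'))
  | d + 1, _, i, k =>
    force (i / 2) fun j =>
      bif Nat.beq (i % 2) 0 then insK v d .nil j (fun l' => k (.node l' .nil))
      else insK v d .nil j (fun r' => k (.node .nil r'))

theorem insK_sound (P : Nat → Prop) (v : Nat) (hv : P v) :
    ∀ (d : Nat) (t : T) (i : Nat) (k : T → Bool), T.All P t → insK v d t i k = true →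
      ∃ t', T.All P t' ∧ k t' = true
  | 0, t, i, k, _, h => by
    refine ⟨.leaf v, hv, ?_⟩
    cases t <;> exact h
  | d + 1, .node l r, i, k, ht, h => by
    rw [insK, force_eq] at h
    cases hb : Nat.beq (i % 2) 0 with
    | true =>
      rw [hb] at h
      obtain ⟨t', h1, h2⟩ := insK_sound P v hv d l _ _ ht.1 h
      exact ⟨.node t' r, ⟨h1, ht.2⟩, h2⟩
    | false =>
      rw [hb] at h
      obtain ⟨t', h1, h2⟩ := insK_sound P v hv d r _ _ ht.2 h
      exact ⟨.node l t', ⟨ht.1, h1⟩, h2⟩
  | d + 1, .nil, i, k, ht, h => by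
    rw [insK, force_eq] at h
    · cases hb : Nat.beq (i % 2) 0 with
      | true =>
        rw [hb] at h
        obtain ⟨t', h1, h2⟩ := insK_sound P v hv d .nil _ _ trivial h
        exact ⟨.node t' .nil, ⟨h1, trivial⟩, h2⟩
      | false =>
        rw [hb] at h
        obtain ⟨t', h1, h2⟩ := insK_sound P v hv d .nil _ _ trivial h
        exact ⟨.node .nil t', ⟨trivial, h1⟩, h2⟩
    · intro l r hh; cases hh
  | d + 1, .leaf n, i, k, ht, h => by
    rw [insK, force_eq] at h
    · cases hb : Nat.beq (i % 2) 0 with
      | true =>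
        rw [hb] at h
        obtain ⟨t', h1, h2⟩ := insK_sound P v hv d .nil _ _ trivial h
        exact ⟨.node t' .nil, ⟨h1, trivial⟩, h2⟩
      | false =>
        rw [hb] at h
        obtain ⟨t', h1, h2⟩ := insK_sound P v hv d .nil _ _ trivial h
        exact ⟨.node .nil t', ⟨trivial, h1⟩, h2⟩
    · intro l r hh; cases hh

/-- Unit propagation from the false literals `F`; a hint is `idx + 4096 * s` where `s = 0` marks the
final conflict and `s = l + 1` says that the clause number `idx` forces the literal `l`. -/
def prop (t : T) : Nat → Nat → Nat → Bool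
  | 0, _, _ => false
  | n + 1, F, H =>
    force (H / 16777216) fun H' =>
    force (H / 4096 % 4096) fun s =>
    getK (fun c =>
      bif Nat.beq s 0 then Nat.beq (c ||| F) F
      else force (s - 1) fun l =>
        force (F ||| 1 <<< l) fun G =>
          bif Nat.beq (c ||| G) G then force (F ||| 1 <<< (ng l)) fun F' => prop t n F' H'
          else false) t (H % 4096)

theorem prop_sound (f : Nat → Prop) (t : T) (ht : T.All (ct f) t) :
    ∀ (n F H : Nat), FF f F → prop t n F H = true → False
  | 0, F, H, _, h => by simp [prop] at h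
  | n + 1, F, H, hF, h => by
    rw [prop, force_eq, force_eq] at h
    obtain ⟨c, hc, h⟩ := getK_sound (ct f) (ct_three f) _ t _ ht h
    cases hs : Nat.beq (H / 4096 % 4096) 0 with
    | true =>
      rw [hs] at h
      exact conflict f F c hF hc (Nat.eq_of_beq_eq_true h)
    | false =>
      rw [hs] at h
      simp only [cond_false, force_eq] at h
      cases hb : Nat.beq (c ||| (F ||| 1 <<< (H / 4096 % 4096 - 1)))
        (F ||| 1 <<< (H / 4096 % 4096 - 1)) with
      | false => rw [hb] at h; simp at h
      | true =>
        rw [hb] at h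
        have hl := unit_step f F c _ hF hc (Nat.eq_of_beq_eq_true hb)
        exact prop_sound f t ht n _ _ (FF_insert f F _ hF hl) h

/-- run a list of steps `(clause, number of hints, hints)` -/
def run : List (Nat × Nat × Nat) → T → Nat → Bool
  | [], _, _ => false
  | (C, n, H) :: rest, t, i =>
    bif prop t n C H then
      bif Nat.beq C 0 then true
      else insK C 12 t i fun t' => force (i + 1) fun i' => run rest t' i'
    else false

theorem ct_of_prop (f : Nat → Prop) (t : T) (ht : T.All (ct f) t) (C n H : Nat)
    (h : prop t n C H = true) : ct f C := by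
  by_contra hc
  refine prop_sound f t ht n C H ?_ h
  intro l hl hlt
  exact hc ⟨l, hl, hlt⟩

theorem run_sound (f : Nat → Prop) :
    ∀ (s : List (Nat × Nat × Nat)) (t : T) (i : Nat), T.All (ct f) t → run s t i = true → False
  | [], t, i, _, h => by simp [run] at h
  | (C, n, H) :: rest, t, i, ht, h => by
    rw [run] at h
    cases hp : prop t n C H with
    | false => rw [hp] at h; simp at h
    | true =>
      rw [hp] at h
      have hC := ct_of_prop f t ht C n H hp
      cases h0 : Nat.beq C 0 with
      | true =>
        obtain ⟨l, hl, _⟩ := hC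
        rw [Nat.eq_of_beq_eq_true h0] at hl
        simp at hl
      | false =>
        rw [h0] at h
        simp only [cond_true, cond_false] at h
        obtain ⟨t', h1, h2⟩ := insK_sound (ct f) C hC 12 t i _ ht h
        rw [force_eq] at h2
        exact run_sound f rest t' _ h1 h2

/-- load a list of clauses into the store -/
def load : List Nat → T → Nat → (T → Nat → Bool) → Bool
  | [], t, i, k => k t i
  | C :: rest, t, i, k => force C fun C' => insK C' 12 t i fun t' => force (i + 1) fun i' => load rest t' i' k

theorem load_sound (P : Nat → Prop) :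
    ∀ (s : List Nat) (t : T) (i : Nat) (k : T → Nat → Bool), (∀ C ∈ s, P C) → T.All P t →
      load s t i k = true → ∃ t' i', T.All P t' ∧ k t' i' = true
  | [], t, i, k, _, ht, h => ⟨t, i, ht, h⟩
  | C :: rest, t, i, k, hs, ht, h => by
    rw [load, force_eq] at h
    obtain ⟨t', h1, h2⟩ := insK_sound P C (hs C (by simp)) 12 t i _ ht h
    rw [force_eq] at h2
    exact load_sound P rest t' _ k (fun D hD => hs D (by simp [hD])) h1 h2

/-- the full check: clauses numbered from `1` on, then the steps -/
def check (cs : List Nat) (s : List (Nat × Nat × Nat)) : Bool :=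
  load cs .nil 1 fun t i => run s t i

theorem check_sound (f : Nat → Prop) (cs : List Nat) (s : List (Nat × Nat × Nat))
    (hc : ∀ C ∈ cs, ct f C) (h : check cs s = true) : False := by
  obtain ⟨t, i, h1, h2⟩ := load_sound (ct f) cs .nil 1 _ hc trivial h
  exact run_sound f s t i h1 h2

end Pool.Agent.Y568.Rup
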